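import Pool.Agent.Helper98.CP.RDefs

set_option autoImplicit false

namespace Pool.Agent.CP

open Stage Pool.Agent.CQ

/-! ### OR-2: evaluation of words -/

section fold

variable {α β σ : Type*} [Primcodable α] [Primcodable β] [Primcodable σ]

/-- `foldl` is computable -/
theorem or2_foldl {f : α → List β} {g : α → σ} {h : α → σ × β → σ} (hf : Computable f)
    (hg : Computable g) (hh : Computable₂ h) :
    Computable (fun a => (f a).foldl (fun s b => h a (s, b)) (g a)) := by
  let st : α → ℕ × σ → σ := fun a p => Option.casesOn (motive := fun _ => σ) ((f a)[p.1]?) p.2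
    (fun b => h a (p.2, b))
  have hst : Computable₂ st := by
    have h1 : Computable (fun q : α × (ℕ × σ) => (f q.1)[q.2.1]?) :=
      Computable.list_getElem?.comp (hf.comp Computable.fst)
        (Computable.fst.comp Computable.snd)
    have h2 : Computable (fun q : α × (ℕ × σ) => q.2.2) := Computable.snd.comp Computable.snd
    have h3 : Computable₂ (fun (q : α × (ℕ × σ)) (b : β) => h q.1 (q.2.2, b)) := by
      refine hh.comp (Computable.fst.comp Computable.fst) ?_
      exact Computable.pair (h2.comp Computable.fst) Computable.snd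
    exact Computable.option_casesOn h1 h2 h3
  have hrec := Computable.nat_rec (f := fun a => (f a).length) (g := g) (h := st)
    (Computable.list_length.comp hf) hg hst
  refine hrec.of_eq (fun a => ?_)
  have key : ∀ m : ℕ, Nat.rec (motive := fun _ => σ) (g a) (fun y IH => st a (y, IH)) m =
      ((f a).take m).foldl (fun s b => h a (s, b)) (g a) := by
    intro m
    induction m with
    | zero => simp
    | succ m ih =>
      change st a (m, Nat.rec (motive := fun _ => σ) (g a) (fun y IH => st a (y, IH)) m) = _
      rw [ih, List.take_add_one, List.foldl_append]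
      simp only [st]
      cases h1 : (f a)[m]? with
      | none => simp
      | some b => simp
  have := key (f a).length
  rw [List.take_length] at this
  exact this

end fold

theorem or2_foldl_mat {k n : ℕ} (ρ : FreeGroup (Fin k) →* ((Fin n → ℚ) →ₗ[ℚ] (Fin n → ℚ)))
    (w : Wd k) : ∀ u : Wd k, w.foldl
      (fun (s : Matrix (Fin n) (Fin n) ℚ) b => s * LinearMap.toMatrix' (ρ (gw [b])))
      (LinearMap.toMatrix' (ρ (gw u))) = LinearMap.toMatrix' (ρ (gw (u ++ w))) := by
  induction w with
  | nil => intro u; simp
  | cons b w ih =>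
    intro u
    have h1 : LinearMap.toMatrix' (ρ (gw u)) * LinearMap.toMatrix' (ρ (gw [b])) =
        LinearMap.toMatrix' (ρ (gw (u ++ [b]))) := by
      rw [gw_append, map_mul, Module.End.mul_eq_comp, LinearMap.toMatrix'_comp]
    rw [List.foldl_cons, h1, ih (u ++ [b])]
    simp

/-- any homomorphism from a free group to linear maps has computable matrix -/
theorem c_mat {k n : ℕ} (ρ : FreeGroup (Fin k) →* ((Fin n → ℚ) →ₗ[ℚ] (Fin n → ℚ))) :
    Computable (fun w : Wd k => LinearMap.toMatrix' (ρ (gw w))) := by
  have hM : Computable (fun b : Fin k × Bool => LinearMap.toMatrix' (ρ (gw [b]))) :=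
    (Primrec.dom_finite _).to_comp
  have hh : Computable₂ (fun (_ : Wd k) (p : Matrix (Fin n) (Fin n) ℚ × (Fin k × Bool)) =>
      p.1 * LinearMap.toMatrix' (ρ (gw [p.2]))) :=
    c_mmul (Computable.fst.comp Computable.snd) (hM.comp (Computable.snd.comp Computable.snd))
  have := or2_foldl (α := Wd k) (f := fun w => w)
    (g := fun _ => LinearMap.toMatrix' (ρ (gw ([] : Wd k)))) Computable.id
    (Computable.const _) hh
  refine this.of_eq (fun w => ?_)
  have h2 := or2_foldl_mat ρ w []
  simpa using h2

/-- any additive function on a free group is computable -/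
theorem c_additive {k q : ℕ} (κ : FreeGroup (Fin k) → (Fin q → ℚ))
    (hκ : ∀ a b, κ (a * b) = κ a + κ b) : Computable (fun w : Wd k => κ (gw w)) := by
  have hM : Computable (fun b : Fin k × Bool => κ (gw [b])) := (Primrec.dom_finite _).to_comp
  have hh : Computable₂ (fun (_ : Wd k) (p : (Fin q → ℚ) × (Fin k × Bool)) =>
      p.1 + κ (gw [p.2])) :=
    c_vadd (Computable.fst.comp Computable.snd) (hM.comp (Computable.snd.comp Computable.snd))
  have := or2_foldl (α := Wd k) (f := fun w => w) (g := fun _ => κ (gw ([] : Wd k)))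
    Computable.id (Computable.const _) hh
  refine this.of_eq (fun w => ?_)
  have key : ∀ (w u : Wd k), w.foldl (fun s b => s + κ (gw [b])) (κ (gw u)) = κ (gw (u ++ w)) := by
    intro w
    induction w with
    | nil => intro u; simp
    | cons b w ih =>
      intro u
      have h1 : κ (gw u) + κ (gw [b]) = κ (gw (u ++ [b])) := by
        rw [gw_append, hκ]
      rw [List.foldl_cons, h1, ih (u ++ [b])]
      simp
  have h2 := key w []
  simpa using h2

theorem c_act {k n : ℕ} (ρ : FreeGroup (Fin k) →* ((Fin n → ℚ) →ₗ[ℚ] (Fin n → ℚ)))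
    {α : Type*} [Primcodable α] {w : α → Wd k} {v : α → (Fin n → ℚ)} (hw : Computable w)
    (hv : Computable v) : Computable (fun a => ρ (gw (w a)) (v a)) := by
  refine (c_mulVec ((c_mat ρ).comp hw) hv).of_eq (fun a => ?_)
  rw [LinearMap.toMatrix'_mulVec]

theorem c_d {k n : ℕ} (S : Stage (FreeGroup (Fin k)) (Fin n → ℚ))
    {α : Type*} [Primcodable α] {w : α → Wd k} {x : α → (Fin n → ℚ)} (hw : Computable w)
    (hx : Computable x) : Computable (fun a => S.d (x a) (gw (w a))) :=
  c_vsub (c_act S.ρ hw hx) hx

/-- the matrix of `∑ qᵢ ρ(gᵢ)` is computable -/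
theorem c_op {k n : ℕ} (S : Stage (FreeGroup (Fin k)) (Fin n → ℚ)) :
    Computable (fun l : List (ℚ × Wd k) => LinearMap.toMatrix' (S.op (lgw l))) := by
  have hh : Computable₂ (fun (_ : List (ℚ × Wd k)) (p : Matrix (Fin n) (Fin n) ℚ × (ℚ × Wd k)) =>
      p.1 + p.2.1 • LinearMap.toMatrix' (S.ρ (gw p.2.2))) := by
    refine c_madd (Computable.fst.comp Computable.snd) (c_smul ?_ ?_)
    · exact Computable.fst.comp (Computable.snd.comp Computable.snd)
    · exact (c_mat S.ρ).comp (Computable.snd.comp (Computable.snd.comp Computable.snd))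
  have := or2_foldl (α := List (ℚ × Wd k)) (f := fun w => w)
    (g := fun _ => (0 : Matrix (Fin n) (Fin n) ℚ)) Computable.id (Computable.const _) hh
  refine this.of_eq (fun l => ?_)
  have key : ∀ (l : List (ℚ × Wd k)) (A : Matrix (Fin n) (Fin n) ℚ),
      l.foldl (fun s b => s + b.1 • LinearMap.toMatrix' (S.ρ (gw b.2))) A =
        A + LinearMap.toMatrix' (S.op (lgw l)) := by
    intro l
    induction l with
    | nil => intro A; simp [lgw, op]
    | cons b l ih =>
      intro A
      rw [List.foldl_cons, ih]
      have h1 : S.op (lgw (b :: l)) = b.1 • S.ρ (gw b.2) + S.op (lgw l) := by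
        simp [lgw, op]
      rw [h1, map_add, map_smul, add_assoc]
  have h2 := key l 0
  simpa using h2

end Pool.Agent.CP
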