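import Pool.Agent.Helper98.CP.Basic

set_option autoImplicit false

namespace Pool.Agent.CP

open Stage

variable {G V : Type*} [Group G] [AddCommGroup V] [Module ℚ V]

/-! ### auxiliary facts -/

/-- subgroups containing `N` are normal -/
theorem oa1_normal_of_le (S : Stage G V) {H : Subgroup G} (h : S.N ≤ H) : H.Normal := ⟨by
  intro n hn g
  have h1 := h (S.comm g n)
  have h2 := H.mul_mem h1 hn
  simpa [mul_assoc] using h2⟩

theorem oa1_mem_sup (S : Stage G V) {H K : Subgroup G} (hK : S.N ≤ K) {g : G} (hg : g ∈ H ⊔ K) :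
    ∃ w ∈ H, w⁻¹ * g ∈ K := by
  have := oa1_normal_of_le S hK
  have h1 : g ∈ (↑(H ⊔ K) : Set G) := hg
  rw [Subgroup.mul_normal] at h1
  obtain ⟨w, hw, k, hk, rfl⟩ := Set.mem_mul.1 h1
  exact ⟨w, hw, by simpa using hk⟩

theorem oa1_cl_split (S : Stage G V) (h : List G) : ∀ (b : List G) {g : G},
    g ∈ S.cl (b ++ h) → ∃ e : List ℤ, e.length = b.length ∧ (pw b e)⁻¹ * g ∈ S.cl h
  | [], g, hg => ⟨[], rfl, by simpa [pw] using hg⟩
  | b0 :: bs, g, hg => by
    have hle : S.cl (b0 :: bs ++ h) ≤ Subgroup.zpowers b0 ⊔ S.cl (bs ++ h) := by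
      apply cl_le
      · intro a ha
        simp only [List.cons_append, List.mem_cons] at ha
        rcases ha with rfl | ha
        · exact Subgroup.mem_sup_left (Subgroup.mem_zpowers a)
        · exact Subgroup.mem_sup_right (mem_cl_of_mem ha)
      · exact (N_le_cl _).trans le_sup_right
    obtain ⟨w, hw, hw2⟩ := oa1_mem_sup S (N_le_cl (bs ++ h)) (hle hg)
    obtain ⟨k, rfl⟩ := Subgroup.mem_zpowers_iff.1 hw
    obtain ⟨e, he, he2⟩ := oa1_cl_split S h bs hw2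
    refine ⟨k :: e, by simp [he], ?_⟩
    have : (pw (b0 :: bs) (k :: e))⁻¹ * g = (pw bs e)⁻¹ * ((b0 ^ k)⁻¹ * g) := by
      simp only [pw]
      group
    rw [this]
    exact he2

theorem oa1_pw_mem {H : Subgroup G} : ∀ (b : List G) (e : List ℤ), (∀ g ∈ b, g ∈ H) → pw b e ∈ H
  | [], _, _ => by simp only [pw]; exact H.one_mem
  | _ :: _, [], _ => by simp only [pw]; exact H.one_mem
  | b0 :: bs, k :: e, hb => by
    simp only [pw]
    refine H.mul_mem (H.zpow_mem (hb b0 (by simp)) k) (oa1_pw_mem bs e ?_)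
    intro g hg
    exact hb g (List.mem_cons_of_mem _ hg)

theorem oa1_pw_zero : ∀ (b : List G) (e : List ℤ), (∀ i ∈ e, i = 0) → pw b e = 1
  | [], _, _ => by simp only [pw]
  | _ :: _, [], _ => by simp only [pw]
  | b0 :: bs, k :: e, he => by
    simp only [pw]
    have h0 : k = 0 := he k (by simp)
    rw [h0, zpow_zero, one_mul]
    exact oa1_pw_zero bs e (fun i hi => he i (List.mem_cons_of_mem _ hi))

/-- an element of `cl h` lying in `C x` is, modulo `N`, in the closure of `h` -/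
theorem oa1_cl_closure (S : Stage G V) {h : List G} {g : G} (hg : g ∈ S.cl h) :
    ∃ w ∈ Subgroup.closure {a | a ∈ h}, w⁻¹ * g ∈ S.N :=
  oa1_mem_sup S le_rfl hg

/-- `NQ` version of `Cp` -/
def oa1_Cq (S : Stage G V) (x : V) : Subgroup G where
  carrier := {g | g ∈ S.C x ∧ S.NQ x (S.d x g)}
  one_mem' := ⟨(S.C x).one_mem, by rw [d_one]; exact NQ.zero⟩
  mul_mem' := by
    rintro a b ⟨ha, ha'⟩ ⟨hb, hb'⟩
    refine ⟨(S.C x).mul_mem ha hb, ?_⟩
    rw [d_mul]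
    exact (hb'.act ha).add ha'
  inv_mem' := by
    rintro a ⟨ha, ha'⟩
    refine ⟨(S.C x).inv_mem ha, ?_⟩
    rw [d_inv]
    exact (ha'.act ((S.C x).inv_mem ha)).neg

theorem oa1_NQ_of_cl {S : Stage G V} {x : V} {h : List G} (hC : ∀ g ∈ h, g ∈ S.C x)
    (hh : ∀ g ∈ h, S.NQ x (S.d x g)) {a : G} (ha : a ∈ S.cl h) (haC : a ∈ S.C x) :
    S.NQ x (S.d x a) := by
  obtain ⟨w, hw, hw2⟩ := oa1_cl_closure S ha
  have hwq : w ∈ oa1_Cq S x := by
    have : Subgroup.closure {a | a ∈ h} ≤ oa1_Cq S x :=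
      (Subgroup.closure_le _).2 fun g hg => ⟨hC g hg, hh g hg⟩
    exact this hw
  have h1 := (NB_of_inv_mul_mem hwq.1 haC hw2).NQ
  have h2 := h1.add hwq.2
  simpa using h2

/-- `d` is additive on a subgroup of elements acting trivially -/
theorem oa1_triv_zpow {S : Stage G V} {x : V} (htriv : ∀ g ∈ S.C x, S.Triv g) {g : G}
    (hg : g ∈ S.C x) (k : ℤ) : S.d x (g ^ k) - k • S.d x g ∈ S.U' := by
  let f : S.C x →* Multiplicative (V ⧸ S.U') :=
    { toFun := fun a => Multiplicative.ofAdd (S.U'.mkQ (S.d x (a : G)))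
      map_one' := by
        change Multiplicative.ofAdd (S.U'.mkQ (S.d x (1 : G))) = 1
        rw [d_one, map_zero, ofAdd_zero]
      map_mul' := by
        intro a b
        change Multiplicative.ofAdd (S.U'.mkQ (S.d x ((a : G) * b))) = _
        rw [← ofAdd_add, ← map_add]
        congr 1
        rw [← sub_eq_zero, ← map_sub]
        exact (Submodule.Quotient.mk_eq_zero _).2 (triv_d (htriv a a.2) b.2) }
  have h1 : f (⟨g, hg⟩ ^ k) = f ⟨g, hg⟩ ^ k := map_zpow f _ k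
  have h2 : S.U'.mkQ (S.d x (g ^ k)) = k • S.U'.mkQ (S.d x g) := by
    have := congrArg Multiplicative.toAdd h1
    rw [toAdd_zpow] at this
    exact this
  have h3 : S.U'.mkQ (S.d x (g ^ k) - k • S.d x g) = 0 := by
    rw [map_sub, map_zsmul, h2, sub_self]
  exact (Submodule.Quotient.mk_eq_zero _).1 h3

theorem oa1_triv_pw {S : Stage G V} {x : V} (htriv : ∀ g ∈ S.C x, S.Triv g) :
    ∀ (b : List G) (e : List ℤ), (∀ g ∈ b, g ∈ S.C x) →
      S.d x (pw b e) - lc (b.map (S.d x)) e ∈ S.U'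
  | [], _, _ => by simp [pw, lc, d_one]
  | _ :: _, [], _ => by simp [pw, lc, d_one]
  | b0 :: bs, k :: e, hb => by
    simp only [pw, List.map_cons, lc]
    have hb0 : b0 ∈ S.C x := hb b0 (by simp)
    have hbs : ∀ g ∈ bs, g ∈ S.C x := fun g hg => hb g (List.mem_cons_of_mem _ hg)
    have h1 := oa1_triv_zpow htriv hb0 k
    have h2 := oa1_triv_pw htriv bs e hbs
    have h3 := triv_d (x := x) (htriv _ ((S.C x).zpow_mem hb0 k)) (oa1_pw_mem bs e hbs)
    have := S.U'.add_mem h3 (S.U'.add_mem h1 h2)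
    have e1 : S.d x (b0 ^ k * pw bs e) - (k • S.d x b0 + lc (bs.map (S.d x)) e)
        = S.d x (b0 ^ k * pw bs e) - (S.d x (b0 ^ k) + S.d x (pw bs e))
          + (S.d x (b0 ^ k) - k • S.d x b0 + (S.d x (pw bs e) - lc (bs.map (S.d x)) e)) := by
      abel
    rw [e1]
    exact this

theorem oa1_κ_zpow (S : Stage G V) (g : G) (k : ℤ) : S.κ (g ^ k) = k • S.κ g := by
  let f : G →* Multiplicative (Fin S.q → ℚ) :=
    { toFun := fun a => Multiplicative.ofAdd (S.κ a)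
      map_one' := by rw [κ_one, ofAdd_zero]
      map_mul' := by
        intro a b
        rw [S.κ_mul, ofAdd_add] }
  have h1 := congrArg Multiplicative.toAdd (map_zpow f g k)
  rw [toAdd_zpow] at h1
  exact h1

theorem oa1_κ_pw (S : Stage G V) : ∀ (b : List G) (e : List ℤ),
    S.κ (pw b e) = lc (b.map S.κ) e
  | [], _ => by simp [pw, lc, κ_one]
  | _ :: _, [] => by simp [pw, lc, κ_one]
  | b0 :: bs, k :: e => by
    simp only [pw, List.map_cons, lc]
    rw [S.κ_mul, oa1_κ_zpow, oa1_κ_pw S bs e]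

theorem oa1_κ_cl {S : Stage G V} {h : List G} (hh : ∀ g ∈ h, S.κ g = 0) {a : G}
    (ha : a ∈ S.cl h) : S.κ a = 0 := by
  let K : Subgroup G :=
    { carrier := {g | S.κ g = 0}
      one_mem' := κ_one
      mul_mem' := by
        intro a b ha hb
        simp only [Set.mem_ofPred_eq] at ha hb ⊢
        rw [S.κ_mul, ha, hb, add_zero]
      inv_mem' := by
        intro a ha
        simp only [Set.mem_ofPred_eq] at ha ⊢
        rw [κ_inv, ha, neg_zero] }
  have : S.cl h ≤ K := cl_le (fun g hg => hh g hg)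
    (fun ν hν => κ_of_triv (S.triv_of_mem_N hν))
  exact this ha

/-- own copy of the Schur type lemma (module OA-4a) -/
theorem oa1_NQ_of_sub_one [FiniteDimensional ℚ V] {S : Stage G V} {x : V} {a : G}
    (ha : a ∈ S.C x) (hn : ¬ S.Triv a) {z : V} (hz : z ∈ S.U) (h : S.NQ x (S.ρ a z - z)) :
    S.NQ x z := by
  let X : V →ₗ[ℚ] V := S.ρ a - LinearMap.id
  have hXapp : ∀ v, X v = S.ρ a v - v := fun v => by simp [X]
  have hX : X ∈ Submodule.span ℚ (Set.range S.ρ) := by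
    refine Submodule.sub_mem _ (Submodule.subset_span ⟨a, rfl⟩) (Submodule.subset_span ⟨1, ?_⟩)
    rw [map_one]; rfl
  have hinj : ∀ v ∈ S.U, X v ∈ S.U' → v ∈ S.U' := by
    rcases S.schur X hX with h1 | h1
    · exact absurd (fun v hv => by rw [← hXapp]; exact h1 v hv) hn
    · exact h1
  let W0 : Submodule ℚ V :=
    { carrier := {z | z ∈ S.U ∧ S.NQ x z}
      add_mem' := fun h1 h2 => ⟨S.U.add_mem h1.1 h2.1, h1.2.add h2.2⟩
      zero_mem' := ⟨S.U.zero_mem, NQ.zero⟩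
      smul_mem' := fun q _ h1 => ⟨S.U.smul_mem q h1.1, h1.2.smul q⟩ }
  have hXW : ∀ v ∈ W0, X v ∈ W0 := by
    rintro v ⟨hv, hv2⟩
    rw [hXapp]
    exact ⟨S.U.sub_mem (S.invU a v hv) hv, (hv2.act ha).sub hv2⟩
  have hXU' : S.U' ≤ S.U'.comap X := by
    intro v hv
    rw [Submodule.mem_comap, hXapp]
    exact S.U'.sub_mem (S.invU' a v hv) hv
  let Xb : (V ⧸ S.U') →ₗ[ℚ] (V ⧸ S.U') := S.U'.mapQ S.U' X hXU'
  let Wb : Submodule ℚ (V ⧸ S.U') := W0.map S.U'.mkQ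
  have hXb : ∀ w ∈ Wb, Xb w ∈ Wb := by
    rintro _ ⟨v, hv, rfl⟩
    exact ⟨X v, hXW v hv, by simp [Xb]⟩
  have hinjb : Function.Injective (Xb.restrict hXb) := by
    rw [← LinearMap.ker_eq_bot, LinearMap.ker_eq_bot']
    rintro ⟨_, ⟨v, hv, rfl⟩⟩ h0
    have h1 : Xb (S.U'.mkQ v) = 0 := congrArg Subtype.val h0
    have h2 : X v ∈ S.U' := by
      have : S.U'.mkQ (X v) = 0 := by
        rw [← h1]; simp [Xb]
      exact (Submodule.Quotient.mk_eq_zero _).1 this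
    have h3 := hinj v hv.1 h2
    apply Subtype.ext
    change S.U'.mkQ v = 0
    exact (Submodule.Quotient.mk_eq_zero _).2 h3
  have hsurj := LinearMap.injective_iff_surjective.1 hinjb
  have hXz : X z ∈ W0 := by
    rw [hXapp]
    exact ⟨S.U.sub_mem (S.invU a z hz) hz, h⟩
  obtain ⟨⟨_, ⟨w, hw, rfl⟩⟩, hw2⟩ := hsurj ⟨S.U'.mkQ (X z), ⟨X z, hXz, rfl⟩⟩
  have h1 : Xb (S.U'.mkQ w) = S.U'.mkQ (X z) := congrArg Subtype.val hw2
  have h2 : X (z - w) ∈ S.U' := by
    have : S.U'.mkQ (X (z - w)) = 0 := by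
      rw [map_sub X, map_sub S.U'.mkQ, ← h1]
      simp [Xb]
    exact (Submodule.Quotient.mk_eq_zero _).1 this
  have h3 := hinj (z - w) (S.U.sub_mem hz hw.1) h2
  have h4 := hw.2.add (NQ.of_mem (x := x) h3)
  simpa using h4

/-! ### OA-1: soundness and completeness of the certificate for generators of `C' x` -/

/-- the orbit of `h` described by `c`, keeping track of `cl Λ` -/
theorem oa1_orbit {S : Stage G V} {x : V} {b h c : List G} (hc : S.Conf x b h c) {Λ : List G}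
    (h1 : ∀ g ∈ c, ∀ a ∈ h, ∃ g' ∈ c, S.NB x (S.d x (a * g) - S.d x g') ∧
      g'⁻¹ * (a * g) ∈ S.cl Λ)
    (h1' : ∀ g ∈ c, ∀ a ∈ h, ∃ g' ∈ c, S.NB x (S.d x (a⁻¹ * g) - S.d x g') ∧
      g'⁻¹ * (a⁻¹ * g) ∈ S.cl Λ) {a : G} (ha : a ∈ S.cl h) (haC : a ∈ S.C x) :
    ∃ g' ∈ c, g'⁻¹ * a ∈ S.cl Λ ∧ S.NB x (S.d x a - S.d x g') := by
  obtain ⟨w, hw, hw2⟩ := oa1_cl_closure S ha
  have hclC : Subgroup.closure {a | a ∈ h} ≤ S.C x :=
    (Subgroup.closure_le _).2 fun g hg => hc.h_mem g hg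
  have hP : ∀ w ∈ Subgroup.closure {a | a ∈ h},
      ∃ g' ∈ c, g'⁻¹ * w ∈ S.cl Λ ∧ S.NB x (S.d x w - S.d x g') := by
    intro w hw
    induction hw using Subgroup.closure_induction_left with
    | one =>
      refine ⟨1, hc.one_mem, ?_, ?_⟩
      · simp
      · rw [sub_self]; exact NB.zero
    | mul_left s hs y hy ih =>
      obtain ⟨g'', hg'', h2, h3⟩ := ih
      obtain ⟨g', hg', h4, h5⟩ := h1 g'' hg'' s hs
      refine ⟨g', hg', ?_, ?_⟩
      · have := (S.cl Λ).mul_mem h5 h2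
        have e : g'⁻¹ * (s * g'') * (g''⁻¹ * y) = g'⁻¹ * (s * y) := by group
        rwa [e] at this
      · refine NB.trans ?_ h4
        have := h3.act (hc.h_mem s hs)
        rw [d_mul, d_mul]
        rw [map_sub] at this
        have e : S.ρ s (S.d x y) + S.d x s - (S.ρ s (S.d x g'') + S.d x s)
          = S.ρ s (S.d x y) - S.ρ s (S.d x g'') := by abel
        rwa [e]
    | inv_mul_cancel s hs y hy ih =>
      obtain ⟨g'', hg'', h2, h3⟩ := ih
      obtain ⟨g', hg', h4, h5⟩ := h1' g'' hg'' s hs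
      refine ⟨g', hg', ?_, ?_⟩
      · have := (S.cl Λ).mul_mem h5 h2
        have e : g'⁻¹ * (s⁻¹ * g'') * (g''⁻¹ * y) = g'⁻¹ * (s⁻¹ * y) := by group
        rwa [e] at this
      · refine NB.trans ?_ h4
        have := h3.act ((S.C x).inv_mem (hc.h_mem s hs))
        rw [d_mul, d_mul]
        rw [map_sub] at this
        have e : S.ρ s⁻¹ (S.d x y) + S.d x s⁻¹ - (S.ρ s⁻¹ (S.d x g'') + S.d x s⁻¹)
          = S.ρ s⁻¹ (S.d x y) - S.ρ s⁻¹ (S.d x g'') := by abel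
        rwa [e]
  obtain ⟨g', hg', h2, h3⟩ := hP w hw
  refine ⟨g', hg', ?_, ?_⟩
  · have := (S.cl Λ).mul_mem h2 (N_le_cl Λ hw2)
    have e : g'⁻¹ * w * (w⁻¹ * a) = g'⁻¹ * a := by group
    rwa [e] at this
  · exact (NB_of_inv_mul_mem (hclC hw) haC hw2).trans h3

theorem conf_gen [FiniteDimensional ℚ V] {S : Stage G V} {x : V} {b h c : List G}
    (hc : S.Conf x b h c) {Λ : List G}
    (hΛ : ∀ g ∈ Λ, g ∈ S.C' x)
    (h1 : ∀ g ∈ c, ∀ a ∈ h, ∃ g' ∈ c, S.NB x (S.d x (a * g) - S.d x g') ∧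
      g'⁻¹ * (a * g) ∈ S.cl Λ)
    (h1' : ∀ g ∈ c, ∀ a ∈ h, ∃ g' ∈ c, S.NB x (S.d x (a⁻¹ * g) - S.d x g') ∧
      g'⁻¹ * (a⁻¹ * g) ∈ S.cl Λ)
    (h2 : ∀ g ∈ c, ¬ S.NB x (S.d x g) ∨ g ∈ S.cl Λ) : S.Gen' x Λ := by
  refine ⟨hΛ, ?_⟩
  intro g hg
  have hgC : g ∈ S.C x := S.C'_le x hg
  have hgcl : g ∈ S.cl h := by
    obtain ⟨e, he, he2⟩ := oa1_cl_split S h b (hc.gens hgC)
    have hpwC : pw b e ∈ S.C x := oa1_pw_mem b e hc.b_mem
    have haC : (pw b e)⁻¹ * g ∈ S.C x := (S.C x).mul_mem ((S.C x).inv_mem hpwC) hgC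
    have hpw1 : pw b e = 1 := by
      rcases hc.kind with hb | ⟨htriv, hh, hb⟩ | ⟨g₀, hg₀, hn, hd, hh, hb⟩
      · subst hb
        simp only [pw]
      · apply oa1_pw_zero
        apply hb e (by simpa using he)
        have h3 := oa1_NQ_of_cl hc.h_mem hh he2 haC
        have h4 : S.NQ x (S.d x (pw b e)) := by
          have h5 : S.NQ x (S.d x g) := NQ.of_mem hg
          have h6 : S.d x g = S.ρ (pw b e) (S.d x ((pw b e)⁻¹ * g)) + S.d x (pw b e) := by
            rw [← d_mul]; simp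
          have h7 := h5.sub (h3.act hpwC)
          rw [h6] at h7
          simpa using h7
        have h8 := oa1_triv_pw htriv b e hc.b_mem
        have h9 := h4.sub (NQ.of_mem (x := x) h8)
        simpa using h9
      · have htg : S.Triv g := by
          by_contra hng
          apply hd
          apply oa1_NQ_of_sub_one hgC hng hg₀
          have h3 := NB_cocycle_comm hgC hg₀
          have h4 : S.ρ g₀ (S.d x g) - S.d x g ∈ S.U' := S.U'.sub_mem (S.invU' g₀ _ hg) hg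
          have h5 := h3.add (NB.of_mem (x := x) h4)
          rw [sub_add_cancel] at h5
          exact h5.NQ
        apply oa1_pw_zero
        apply hb e (by simpa using he)
        have h3 := κ_of_triv htg
        have h4 : S.κ g = S.κ (pw b e) + S.κ ((pw b e)⁻¹ * g) := by
          rw [← S.κ_mul]; simp
        rw [h3, oa1_κ_cl hh he2, add_zero, oa1_κ_pw] at h4
        exact h4.symm
    rw [hpw1] at he2
    simpa using he2
  obtain ⟨g', hg', h3, h4⟩ := oa1_orbit hc h1 h1' hgcl hgC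
  have h5 : S.NB x (S.d x g') := by
    have := (C'_NB hg).sub h4
    simpa using this
  rcases h2 g' hg' with h6 | h6
  · exact absurd h5 h6
  · have := (S.cl Λ).mul_mem h6 h3
    simpa using this

theorem conf_gen_conv {S : Stage G V} {x : V} {b h c : List G} (hc : S.Conf x b h c) {Λ : List G}
    (hΛ : S.Gen' x Λ) :
    (∀ g ∈ c, ∀ a ∈ h, ∃ g' ∈ c, S.NB x (S.d x (a * g) - S.d x g') ∧
      g'⁻¹ * (a * g) ∈ S.cl Λ) ∧
    (∀ g ∈ c, ∀ a ∈ h, ∃ g' ∈ c, S.NB x (S.d x (a⁻¹ * g) - S.d x g') ∧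
      g'⁻¹ * (a⁻¹ * g) ∈ S.cl Λ) ∧
    (∀ g ∈ c, ¬ S.NB x (S.d x g) ∨ g ∈ S.cl Λ) := by
  have hCp := Cp_le_cl_of hΛ.2
  have key : ∀ g' g'' : G, g' ∈ S.C x → g'' ∈ S.C x → S.NB x (S.d x g'' - S.d x g') →
      g'⁻¹ * g'' ∈ S.cl Λ := by
    intro g' g'' hg' hg'' h1
    apply hCp
    refine ⟨(S.C x).mul_mem ((S.C x).inv_mem hg') hg'', ?_⟩
    rw [d_mul, d_inv]
    have := h1.act ((S.C x).inv_mem hg')
    rw [map_sub] at this
    rwa [← sub_eq_add_neg]
  refine ⟨?_, ?_, ?_⟩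
  · intro g hg a ha
    obtain ⟨g', hg', h1⟩ := hc.orb g hg a ha
    exact ⟨g', hg', h1, key g' (a * g) (hc.c_mem g' hg')
      ((S.C x).mul_mem (hc.h_mem a ha) (hc.c_mem g hg)) h1⟩
  · intro g hg a ha
    obtain ⟨g', hg', h1⟩ := hc.orb' g hg a ha
    exact ⟨g', hg', h1, key g' (a⁻¹ * g) (hc.c_mem g' hg')
      ((S.C x).mul_mem ((S.C x).inv_mem (hc.h_mem a ha)) (hc.c_mem g hg)) h1⟩
  · intro g hg
    by_cases h1 : S.NB x (S.d x g)
    · exact Or.inr (hCp ⟨hc.c_mem g hg, h1⟩)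
    · exact Or.inl h1

end Pool.Agent.CP
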