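import Pool.Agent.Helper54.CP.OR2
import Pool.Agent.Helper26.CP.OR7
import Pool.Agent.Helper74.CP.OR9a
import Pool.Agent.Helper39.CJ.Lin

set_option autoImplicit false

namespace Pool.Agent.CP

open Stage Pool.Agent.CQ Pool.Agent.LIN

section

variable {α : Type*} [Primcodable α]

/-- a fixed matrix condition `A U ⊆ U'` is semidecidable -/
theorem or9_sub {n : ℕ} (U U' : Submodule ℚ (Fin n → ℚ)) :
    REPred (fun A : Matrix (Fin n) (Fin n) ℚ => ∀ v ∈ U, A.mulVec v ∈ U') := by
  classical
  -- finite spanning set of `U`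
  obtain ⟨F, hF⟩ := (IsNoetherian.noetherian U : U.FG)
  -- matrix with kernel `U'`
  obtain ⟨P, hP⟩ : ∃ P : Matrix (Fin n) (Fin n) ℚ, ∀ v, v ∈ U' ↔ P.mulVec v = 0 := by
    obtain ⟨W, hW⟩ := Submodule.exists_isCompl U'
    let f : (Fin n → ℚ) →ₗ[ℚ] (Fin n → ℚ) := W.subtype ∘ₗ Submodule.projectionOnto W U' hW.symm
    refine ⟨LinearMap.toMatrix' f, fun v => ?_⟩
    rw [LinearMap.toMatrix'_mulVec]
    have h1 : f v = 0 ↔ Submodule.projectionOnto W U' hW.symm v = 0 := by
      simp [f]
    rw [h1, Submodule.projectionOnto_apply_eq_zero_iff]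
  have h1 : REPred (fun A : Matrix (Fin n) (Fin n) ℚ =>
      ∀ i : F, P.mulVec (A.mulVec (i : Fin n → ℚ)) = 0) := by
    apply re_forall_fintype
    intro i
    exact re_eq (c_mulVec (Computable.const P) (c_mulVec Computable.id (Computable.const _)))
      (Computable.const _)
  refine h1.of_eq (fun A => ?_)
  constructor
  · intro h v hv
    rw [← hF] at hv
    induction hv using Submodule.span_induction with
    | mem x hx => exact (hP _).2 (h ⟨x, hx⟩)
    | zero => rw [Matrix.mulVec_zero]; exact U'.zero_mem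
    | add x y _ _ hx hy => rw [Matrix.mulVec_add]; exact U'.add_mem hx hy
    | smul a x _ hx => rw [Matrix.mulVec_smul]; exact U'.smul_mem a hx
  · intro h i
    exact (hP _).1 (h _ (hF ▸ Submodule.subset_span i.2))

theorem or9_mpow {n : ℕ} (M : Matrix (Fin n) (Fin n) ℚ) {f : α → ℕ} (hf : Computable f) :
    Computable (fun a => M ^ f a) := by
  have h1 : Computable (fun j : ℕ => M ^ j) := by
    have hh : Computable₂ (fun (_ : ℕ) (p : ℕ × Matrix (Fin n) (Fin n) ℚ) => p.2 * M) :=
      c_mmul (Computable.snd.comp Computable.snd) (Computable.const M)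
    have := Computable.nat_rec (f := fun j : ℕ => j)
      (g := fun _ => (1 : Matrix (Fin n) (Fin n) ℚ)) Computable.id (Computable.const _) hh
    refine this.of_eq (fun j => ?_)
    induction j with
    | zero => simp
    | succ j ih =>
      rw [pow_succ, ← ih]
  exact h1.comp hf

theorem or9_prod {n : ℕ} : ∀ {r : ℕ} {f : Fin r → α → Matrix (Fin n) (Fin n) ℚ},
    (∀ i, Computable (f i)) → Computable (fun a => (List.ofFn fun i => f i a).prod)
  | 0, f, _ => by
    simp only [List.ofFn_zero, List.prod_nil]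
    exact Computable.const _
  | r + 1, f, hf => by
    simp only [List.ofFn_succ, List.prod_cons]
    exact c_mmul (hf 0) (or9_prod (fun i => hf i.succ))

theorem or9_vecsum {n d : ℕ} {f : Fin d → α → ℚ} (hf : ∀ i, Computable (f i))
    (M : Fin d → Matrix (Fin n) (Fin n) ℚ) : Computable (fun a => ∑ i, f i a • M i) := by
  refine c_matrix (fun p q => ?_)
  simp only [Matrix.sum_apply, Matrix.smul_apply, smul_eq_mul]
  exact c_sum (fun i => c_qmul (hf i) (Computable.const _))

end

/-- the complement of `ρ(G)` among the operators `op l` on `U/U'` is r.e. -/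
theorem re_not_mem_image {k n : ℕ} (S : Stage (FreeGroup (Fin k)) (Fin n → ℚ)) :
    REPred (fun l : List (ℚ × Wd k) =>
      ¬ ∃ g : FreeGroup (Fin k), ∀ v ∈ S.U, S.op (lgw l) v - S.ρ g v ∈ S.U') := by
  classical
  by_cases hU : S.U' = S.U
  · refine re_false.of_eq (fun l => ?_)
    constructor
    · intro h; exact h.elim
    · intro h
      apply h
      refine ⟨1, fun v hv => ?_⟩
      rw [hU]
      refine S.U.sub_mem ?_ (S.invU 1 v hv)
      unfold op
      generalize lgw l = l'
      induction l' with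
      | nil => simp
      | cons p l' ih =>
        simp only [List.map_cons, List.sum_cons, LinearMap.add_apply, LinearMap.smul_apply]
        exact S.U.add_mem (S.U.smul_mem _ (S.invU _ _ hv)) ih
  obtain ⟨s, d, r, ω, η, η', R, hs, -, hiff⟩ := mult_data S hU
  have hop := c_op S
  -- passing from operators to matrices
  have hsub : ∀ {β : Type} [Primcodable β] (f : β → Matrix (Fin n) (Fin n) ℚ), Computable f →
      REPred (fun b => ∀ v ∈ S.U, (f b).mulVec v ∈ S.U') :=
    fun f hf => re_comp (or9_sub S.U S.U') hf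
  have hnot : ∀ {β : Type} [Primcodable β] {q : β → ℚ}, Computable q →
      REPred (fun b => ∀ j : ℕ, ∀ z : ℤ, (s : ℚ) ^ j * q b ≠ z) := by
    intro β _ q hq
    refine (re_notInR hs hq).of_eq (fun b => ?_)
    unfold InR
    push Not
    rfl
  -- the four kinds of certificates
  have hA : REPred (fun l : List (ℚ × Wd k) => ∀ v ∈ S.U, S.op (lgw l) v ∈ S.U') := by
    refine (hsub _ hop).of_eq (fun l => ?_)
    simp only [LinearMap.toMatrix'_mulVec]
  have hY : ∀ i : Fin d, Computable (fun p : List (ℚ × Wd k) × (Fin d → ℚ) => p.2 i) :=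
    fun i => c_app Computable.snd i
  have hB : REPred (fun l : List (ℚ × Wd k) => ∃ y : Fin d → ℚ,
      (∀ v ∈ S.U, S.op (lgw l) v - ∑ i, y i • S.op (ω i) v ∈ S.U') ∧
          ∃ i, ∀ j : ℕ, ∀ z : ℤ, (s : ℚ) ^ j * y i ≠ z) := by
    refine re_exists (β := Fin d → ℚ) (re_and ?_ (re_exists_fintype fun i => hnot (hY i)))
    refine (hsub (fun p : List (ℚ × Wd k) × (Fin d → ℚ) => LinearMap.toMatrix' (S.op (lgw p.1)) -
      ∑ i, p.2 i • LinearMap.toMatrix' (S.op (ω i)))
      (c_msub (hop.comp Computable.fst) (or9_vecsum hY _))).of_eq (fun p => ?_)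
    refine forall_congr' fun v => forall_congr' fun _ => ?_
    rw [Matrix.sub_mulVec, LinearMap.toMatrix'_mulVec, Matrix.sum_mulVec]
    simp only [Matrix.smul_mulVec, LinearMap.toMatrix'_mulVec]
  have hC : REPred (fun l : List (ℚ × Wd k) => ∃ y : Fin d → ℚ,
      (∀ v ∈ S.U, S.op (lgw l) (∑ i, y i • S.op (ω i) v) - v ∈ S.U') ∧
          ∃ i, ∀ j : ℕ, ∀ z : ℤ, (s : ℚ) ^ j * y i ≠ z) := by
    refine re_exists (β := Fin d → ℚ) (re_and ?_ (re_exists_fintype fun i => hnot (hY i)))
    refine (hsub (fun p : List (ℚ × Wd k) × (Fin d → ℚ) => LinearMap.toMatrix' (S.op (lgw p.1)) *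
      (∑ i, p.2 i • LinearMap.toMatrix' (S.op (ω i))) - 1)
      (c_msub (c_mmul (hop.comp Computable.fst) (or9_vecsum hY _))
        (Computable.const _))).of_eq (fun p => ?_)
    refine forall_congr' fun v => forall_congr' fun _ => ?_
    rw [Matrix.sub_mulVec, Matrix.one_mulVec, ← Matrix.mulVec_mulVec, Matrix.sum_mulVec]
    simp only [Matrix.smul_mulVec, LinearMap.toMatrix'_mulVec]
  have hD : REPred (fun l : List (ℚ × Wd k) => ∃ e : Fin r → ℤ, e ∉ R ∧
      ∀ v ∈ S.U, S.op (lgw l) v -
          ((List.ofFn fun i => if 0 ≤ e i then (S.op (η i)) ^ (e i).toNat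
            else (S.op (η' i)) ^ (-(e i)).toNat).prod :
              (Fin n → ℚ) →ₗ[ℚ] (Fin n → ℚ)) v ∈ S.U') := by
    refine re_exists (β := Fin r → ℤ) (re_and ?_ ?_)
    · exact re_comp (cp_subgroup_int R).not.to_re Computable.snd
    · have hE : ∀ i : Fin r, Computable (fun p : List (ℚ × Wd k) × (Fin r → ℤ) => p.2 i) :=
        fun i => c_app Computable.snd i
      let f : Fin r → (List (ℚ × Wd k) × (Fin r → ℤ)) → Matrix (Fin n) (Fin n) ℚ := fun i p =>
        if 0 ≤ p.2 i then (LinearMap.toMatrix' (S.op (η i))) ^ (p.2 i).toNat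
          else (LinearMap.toMatrix' (S.op (η' i))) ^ (-(p.2 i)).toNat
      have hf : ∀ i, Computable (f i) := by
        intro i
        have h1 : Computable (fun p : List (ℚ × Wd k) × (Fin r → ℤ) => decide (0 ≤ p.2 i)) := by
          have h2 : Primrec (fun z : ℤ => decide (0 ≤ z)) := by
            have h3 : Primrec (fun z : ℤ => decide ((-z).toNat = 0)) :=
              (Primrec.eq.comp (pr_toNat (pr_neg Primrec.id)) (Primrec.const 0)).decide
            refine h3.of_eq (fun z => ?_)
            congr 1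
            apply propext
            omega
          exact h2.to_comp.comp (hE i)
        have h4 := Computable.cond h1
          (or9_mpow (LinearMap.toMatrix' (S.op (η i))) ((pr_toNat Primrec.id).to_comp.comp (hE i)))
          (or9_mpow (LinearMap.toMatrix' (S.op (η' i)))
            ((pr_toNat (pr_neg Primrec.id)).to_comp.comp (hE i)))
        refine h4.of_eq (fun p => ?_)
        simp only [f]
        by_cases h5 : 0 ≤ p.2 i
        · simp [h5]
        · simp [h5]
      refine (hsub (fun p : List (ℚ × Wd k) × (Fin r → ℤ) => LinearMap.toMatrix' (S.op (lgw p.1)) -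
        (List.ofFn fun i => f i p).prod)
        (c_msub (hop.comp Computable.fst) (or9_prod hf))).of_eq (fun p => ?_)
      refine forall_congr' fun v => forall_congr' fun _ => ?_
      have hprod : (List.ofFn fun i => f i p).prod = LinearMap.toMatrix'
          ((List.ofFn fun i => if 0 ≤ p.2 i then (S.op (η i)) ^ (p.2 i).toNat
            else (S.op (η' i)) ^ (-(p.2 i)).toNat).prod :
              (Fin n → ℚ) →ₗ[ℚ] (Fin n → ℚ)) := by
        have h6 := map_list_prod (LinearMap.toMatrixAlgEquiv' (R := ℚ) (n := Fin n))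
          (List.ofFn fun i => if 0 ≤ p.2 i then (S.op (η i)) ^ (p.2 i).toNat
            else (S.op (η' i)) ^ (-(p.2 i)).toNat)
        change _ = (LinearMap.toMatrixAlgEquiv' (R := ℚ) (n := Fin n)) _
        rw [h6, List.map_ofFn]
        congr 1
        congr 1
        funext i
        simp only [f, Function.comp]
        split_ifs
        · rw [map_pow]; rfl
        · rw [map_pow]; rfl
      rw [hprod, Matrix.sub_mulVec, LinearMap.toMatrix'_mulVec, LinearMap.toMatrix'_mulVec]
  exact (re_or hA (re_or hB (re_or hC hD))).of_eq (fun l => (hiff (lgw l)).symm)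

end Pool.Agent.CP
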